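import Pool.Agent.Helper42.KS.Goals

set_option autoImplicit false

namespace Pool.Agent.Helper42.KS.PkGPP

open Finset

lemma ee_add (x y : ℝ) : ee (x + y) = ee x * ee y := by
  unfold ee
  rw [← Complex.exp_add]
  congr 1
  push_cast
  ring

lemma ee_int (n : ℤ) : ee n = 1 := by
  unfold ee
  rw [Complex.exp_eq_one_iff]
  exact ⟨n, by push_cast; ring⟩

lemma norm_ee (x : ℝ) : ‖ee x‖ = 1 := by
  unfold ee
  exact Complex.norm_exp_ofReal_mul_I _

/-- `e_q(m)` -/
noncomputable def eq (q : ℕ) (m : ℤ) : ℂ := ee ((m : ℝ) / q)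

lemma norm_eq (q : ℕ) (m : ℤ) : ‖eq q m‖ = 1 := norm_ee _

lemma eq_add (q : ℕ) (m n : ℤ) : eq q (m + n) = eq q m * eq q n := by
  unfold eq
  rw [← ee_add]
  congr 1
  push_cast
  ring

lemma eq_congr (q : ℕ) (hq : 1 ≤ q) (m n : ℤ) (h : (q : ℤ) ∣ m - n) : eq q m = eq q n := by
  obtain ⟨c, hc⟩ := h
  have : m = n + q * c := by linarith
  rw [this, eq_add]
  have h1 : eq q (q * c) = 1 := by
    unfold eq
    rw [← ee_int c]
    congr 1
    have : (q : ℝ) ≠ 0 := by positivity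
    push_cast
    field_simp
  rw [h1, mul_one]

/-- cancel a common factor -/
lemma eq_cancel (c q : ℕ) (hc : 1 ≤ c) (m : ℤ) : eq (c * q) (c * m) = eq q m := by
  unfold eq
  congr 1
  have : (c : ℝ) ≠ 0 := by positivity
  push_cast
  exact mul_div_mul_left _ _ this

lemma eq_mul_nat (q : ℕ) (m : ℤ) (t : ℕ) : eq q (t * m) = (eq q m) ^ t := by
  induction t with
  | zero =>
    unfold eq ee
    simp
  | succ t ih =>
    rw [pow_succ, ← ih, ← eq_add]
    congr 1
    push_cast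
    ring

lemma orth0 (q : ℕ) (hq : 1 ≤ q) (m : ℤ) (h : ¬ (q : ℤ) ∣ m) :
    ∑ t ∈ range q, eq q (t * m) = 0 := by
  have h1 : eq q m ≠ 1 := by
    intro h1
    unfold eq ee at h1
    rw [Complex.exp_eq_one_iff] at h1
    obtain ⟨n, hn⟩ := h1
    apply h
    refine ⟨n, ?_⟩
    have hpi : (Real.pi : ℂ) ≠ 0 := by exact_mod_cast Real.pi_ne_zero
    have hq' : (q : ℂ) ≠ 0 := by
      have : q ≠ 0 := by omega
      exact_mod_cast this
    have h2 : (m : ℂ) / q = n := by
      have h3 : (2 * Real.pi * Complex.I : ℂ) * ((m : ℂ) / q) = (2 * Real.pi * Complex.I) * n := by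
        rw [mul_comm _ (n : ℂ), ← hn]
        push_cast
        ring
      exact mul_left_cancel₀ (by simp [hpi]) h3
    rw [div_eq_iff hq'] at h2
    have h4 : (m : ℂ) = ((q * n : ℤ) : ℂ) := by
      rw [h2]; push_cast; ring
    exact_mod_cast h4
  have h2 : (eq q m) ^ q = 1 := by
    rw [← eq_mul_nat, eq_congr q hq (q * m) 0 (by simp)]
    unfold eq ee
    simp
  calc ∑ t ∈ range q, eq q (t * m) = ∑ t ∈ range q, (eq q m) ^ t := by
        refine sum_congr rfl fun t _ => eq_mul_nat q m t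
    _ = 0 := by
        rw [geom_sum_eq h1, h2]
        simp

lemma orthle (q : ℕ) (m : ℤ) : ‖∑ t ∈ range q, eq q (t * m)‖ ≤ q := by
  refine (norm_sum_le _ _).trans ?_
  simp [norm_eq]

lemma sum_split (A B : ℕ) (f : ℕ → ℂ) :
    ∑ x ∈ range (A * B), f x = ∑ v ∈ range A, ∑ t ∈ range B, f (v + A * t) := by
  induction B with
  | zero => simp
  | succ B ih =>
    rw [mul_add, mul_one, sum_range_add, ih, ← sum_add_distrib]
    refine sum_congr rfl fun v _ => ?_
    rw [sum_range_succ, add_comm v (A * B)]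

/-- the exponential sum -/
noncomputable def SS (k : ℕ) (a b : ℤ) (q : ℕ) : ℂ :=
  ∑ x ∈ range q, eq q (a * (x : ℤ) ^ k + b * x)

lemma GG_eq (k : ℕ) (a b : ℤ) (q : ℕ) : GG k a q b = (q : ℂ)⁻¹ * SS k a b q := by
  unfold GG SS eq
  congr 1
  refine sum_congr rfl fun x _ => ?_
  congr 1
  push_cast
  ring

/-- the part of the sum over multiples of `p` -/
noncomputable def TT (k : ℕ) (a b : ℤ) (p j : ℕ) : ℂ :=
  ∑ x ∈ range (p ^ j), if p ∣ x then eq (p ^ j) (a * (x : ℤ) ^ k + b * x) else 0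

noncomputable def UU (k : ℕ) (a b : ℤ) (p j : ℕ) : ℂ :=
  ∑ x ∈ range (p ^ j), if p ∣ x then 0 else eq (p ^ j) (a * (x : ℤ) ^ k + b * x)

lemma SS_eq (k : ℕ) (a b : ℤ) (p j : ℕ) : SS k a b (p ^ j) = UU k a b p j + TT k a b p j := by
  unfold SS UU TT
  rw [← sum_add_distrib]
  refine sum_congr rfl fun x _ => ?_
  split_ifs <;> simp

lemma TT_eq (k : ℕ) (a b : ℤ) (p j : ℕ) (hp : p.Prime) (hj : 1 ≤ j) :
    TT k a b p j = ∑ x ∈ range (p ^ (j - 1)), eq (p ^ j) (a * (p * x : ℤ) ^ k + b * (p * x)) := by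
  unfold TT
  obtain ⟨i, rfl⟩ : ∃ i, j = i + 1 := ⟨j - 1, by omega⟩
  have h1 : p ^ (i + 1) = p * p ^ i := by ring
  conv_lhs => rw [show range (p ^ (i + 1)) = range (p * p ^ i) by rw [h1]]
  rw [sum_split]
  rw [sum_eq_single_of_mem 0 (by simpa using hp.pos)]
  · simp
  · intro v hv hv0
    apply sum_eq_zero
    intro t _
    rw [if_neg]
    intro h
    rw [Nat.dvd_add_left (Dvd.intro t rfl)] at h
    have := Nat.le_of_dvd (Nat.pos_of_ne_zero hv0) h
    rw [mem_range] at hv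
    omega

lemma TT_triv (k : ℕ) (a b : ℤ) (p j : ℕ) (hp : p.Prime) (hj : 1 ≤ j) :
    ‖TT k a b p j‖ ≤ (p : ℝ) ^ (j - 1) := by
  rw [TT_eq k a b p j hp hj]
  refine (norm_sum_le _ _).trans ?_
  simp [norm_eq]

/-- the recursion -/
lemma TT_rec (k : ℕ) (hk : 1 ≤ k) (a b : ℤ) (p j : ℕ) (hp : p.Prime) (hj : k ≤ j) :
    ∃ b' : ℤ, ‖TT k a b p j‖ ≤ (p : ℝ) ^ (k - 1) * ‖SS k a b' (p ^ (j - k))‖ := by
  rw [TT_eq k a b p j hp (by omega)]
  have hp0 : 0 < p := hp.pos
  have h1 : p ^ (j - 1) = p ^ (j - k) * p ^ (k - 1) := by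
    rw [← pow_add]; congr 1; omega
  have h2 : p ^ j = p ^ k * p ^ (j - k) := by
    rw [← pow_add]; congr 1; omega
  rw [h1, sum_split]
  have h3 : ∀ v t : ℕ, eq (p ^ j) (a * (p * ((v + p ^ (j - k) * t : ℕ) : ℤ)) ^ k +
      b * (p * ((v + p ^ (j - k) * t : ℕ) : ℤ))) =
      eq (p ^ j) (a * (p * (v : ℤ)) ^ k + b * (p * v)) * eq (p ^ (k - 1)) (t * b) := by
    intro v t
    have e1 : eq (p ^ (k - 1)) (t * b) = eq (p ^ j) (b * p * (p ^ (j - k) * t : ℤ)) := by
      have e2 : p ^ j = p ^ (j - k + 1) * p ^ (k - 1) := by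
        rw [← pow_add]; congr 1; omega
      rw [e2, ← eq_cancel (p ^ (j - k + 1)) (p ^ (k - 1)) (Nat.one_le_pow _ _ hp0) (t * b)]
      congr 1
      push_cast
      ring
    rw [e1, ← eq_add]
    apply eq_congr _ (Nat.one_le_pow _ _ hp0)
    have e3 : ((v : ℤ) + p ^ (j - k) * t - v) ∣ ((v : ℤ) + p ^ (j - k) * t) ^ k - (v : ℤ) ^ k :=
      sub_dvd_pow_sub_pow _ _ _
    obtain ⟨c, hc⟩ := e3
    refine ⟨a * t * c, ?_⟩
    rw [h2]
    push_cast
    have : a * (↑p * (↑v + ↑p ^ (j - k) * ↑t)) ^ k + b * (↑p * (↑v + ↑p ^ (j - k) * ↑t)) -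
        (a * (↑p * ↑v) ^ k + b * (↑p * ↑v) + b * ↑p * (↑p ^ (j - k) * ↑t)) =
        a * (p : ℤ) ^ k * (((v : ℤ) + p ^ (j - k) * t) ^ k - (v : ℤ) ^ k) := by
      rw [mul_pow, mul_pow]
      ring
    rw [this, hc]
    ring
  have h4 : ∑ v ∈ range (p ^ (j - k)), ∑ t ∈ range (p ^ (k - 1)),
      eq (p ^ j) (a * (p * ((v + p ^ (j - k) * t : ℕ) : ℤ)) ^ k +
      b * (p * ((v + p ^ (j - k) * t : ℕ) : ℤ))) =
      (∑ v ∈ range (p ^ (j - k)), eq (p ^ j) (a * (p * (v : ℤ)) ^ k + b * (p * v))) *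
      ∑ t ∈ range (p ^ (k - 1)), eq (p ^ (k - 1)) (t * b) := by
    rw [sum_mul_sum]
    refine sum_congr rfl fun v _ => sum_congr rfl fun t _ => h3 v t
  rw [h4]
  by_cases hb : ((p ^ (k - 1) : ℕ) : ℤ) ∣ b
  · obtain ⟨b', rfl⟩ := hb
    refine ⟨b', ?_⟩
    rw [norm_mul, mul_comm]
    have h5 : ∑ v ∈ range (p ^ (j - k)), eq (p ^ j) (a * (p * (v : ℤ)) ^ k +
        ((p ^ (k - 1) : ℕ) : ℤ) * b' * (p * v)) = SS k a b' (p ^ (j - k)) := by
      unfold SS
      refine sum_congr rfl fun v _ => ?_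
      rw [h2, ← eq_cancel (p ^ k) (p ^ (j - k)) (Nat.one_le_pow _ _ hp0)]
      congr 1
      push_cast
      have : (p : ℤ) ^ k = p ^ (k - 1) * p := by
        rw [← pow_succ]; congr 1; omega
      rw [mul_pow, this]
      ring
    rw [h5]
    refine mul_le_mul_of_nonneg_right ?_ (norm_nonneg _)
    refine (orthle _ _).trans ?_
    push_cast
    exact le_rfl
  · refine ⟨0, ?_⟩
    rw [orth0 _ (Nat.one_le_pow _ _ hp0) _ hb]
    simp only [mul_zero, norm_zero]
    positivity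

/-- derivative -/
lemma pow_expand (k : ℕ) (v t A : ℤ) :
    ∃ c : ℤ, (v + A * t) ^ k = v ^ k + A * t * (k * v ^ (k - 1)) + A ^ 2 * c := by
  induction k with
  | zero => exact ⟨0, by simp⟩
  | succ k ih =>
    obtain ⟨c, hc⟩ := ih
    refine ⟨c * (v + A * t) + t ^ 2 * (k * v ^ (k - 1)), ?_⟩
    rw [pow_succ, hc]
    rcases Nat.eq_zero_or_pos k with hk | hk
    · subst hk
      simp
      ring
    · have h1 : v ^ k = v ^ (k - 1) * v := by
        rw [← pow_succ]; congr 1; omega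
      have h2 : v ^ (k + 1) = v ^ (k - 1) * v * v := by rw [pow_succ, h1]
      simp only [Nat.add_sub_cancel]
      push_cast
      rw [h2, h1]
      ring

/-- the set of solutions -/
def ZZ (k : ℕ) (a b : ℤ) (p n : ℕ) : Finset ℕ :=
  (range (p ^ n)).filter (fun v => ¬ (p ∣ v) ∧
    ((p ^ n : ℕ) : ℤ) ∣ (k : ℤ) * a * (v : ℤ) ^ (k - 1) + b)

lemma UU_le (k : ℕ) (a b : ℤ) (p j : ℕ) (hp : p.Prime) (hj : 2 ≤ j) :
    ‖UU k a b p j‖ ≤ (p : ℝ) ^ (j - j / 2) * (ZZ k a b p (j / 2)).card := by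
  have hp0 : 0 < p := hp.pos
  set n := j / 2 with hn
  set h := j - n with hh
  have hn1 : 1 ≤ n := by omega
  have hhn : n ≤ h := by omega
  have h1 : p ^ j = p ^ h * p ^ n := by rw [← pow_add]; congr 1; omega
  have hU : UU k a b p j = ∑ v ∈ range (p ^ h), if p ∣ v then 0 else
      eq (p ^ j) (a * (v : ℤ) ^ k + b * v) *
        ∑ t ∈ range (p ^ n), eq (p ^ n) (t * (k * a * (v : ℤ) ^ (k - 1) + b)) := by
    unfold UU
    rw [show range (p ^ j) = range (p ^ h * p ^ n) by rw [h1], sum_split]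
    refine sum_congr rfl fun v _ => ?_
    have hd : ∀ t : ℕ, (p ∣ v + p ^ h * t) ↔ p ∣ v := by
      intro t
      refine Nat.dvd_add_left ?_
      exact Dvd.dvd.mul_right (dvd_pow_self p (by omega)) t
    split_ifs with hv
    · apply sum_eq_zero
      intro t _
      rw [if_pos ((hd t).2 hv)]
    · rw [mul_sum]
      refine sum_congr rfl fun t _ => ?_
      rw [if_neg (fun h' => hv ((hd t).1 h'))]
      have e1 : eq (p ^ n) (t * (k * a * (v : ℤ) ^ (k - 1) + b)) =
          eq (p ^ j) (p ^ h * (t * (k * a * (v : ℤ) ^ (k - 1) + b))) := by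
        rw [h1, ← eq_cancel (p ^ h) (p ^ n) (Nat.one_le_pow _ _ hp0)]
        push_cast
        rfl
      rw [e1, ← eq_add]
      apply eq_congr _ (Nat.one_le_pow _ _ hp0)
      obtain ⟨c, hc⟩ := pow_expand k v t (p ^ h)
      have h2 : ((p ^ j : ℕ) : ℤ) ∣ ((p : ℤ) ^ h) ^ 2 := by
        rw [← pow_mul]
        push_cast
        exact pow_dvd_pow _ (by omega)
      obtain ⟨c2, hc2⟩ := h2
      refine ⟨a * c * c2, ?_⟩
      push_cast at hc2 ⊢
      rw [hc, hc2]
      ring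
  rw [hU]
  have hb : ∀ v ∈ range (p ^ h), ‖(if p ∣ v then 0 else
      eq (p ^ j) (a * (v : ℤ) ^ k + b * v) *
        ∑ t ∈ range (p ^ n), eq (p ^ n) (t * (k * a * (v : ℤ) ^ (k - 1) + b)))‖ ≤
      if (¬ (p ∣ v) ∧ ((p ^ n : ℕ) : ℤ) ∣ (k : ℤ) * a * (v : ℤ) ^ (k - 1) + b)
        then (p : ℝ) ^ n else 0 := by
    intro v _
    by_cases hv : p ∣ v
    · simp [hv]
    · rw [if_neg hv, norm_mul, norm_eq, one_mul]
      by_cases hw : ((p ^ n : ℕ) : ℤ) ∣ (k : ℤ) * a * (v : ℤ) ^ (k - 1) + b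
      · rw [if_pos ⟨hv, hw⟩]
        refine (orthle _ _).trans ?_
        push_cast
        exact le_rfl
      · rw [orth0 _ (Nat.one_le_pow _ _ hp0) _ hw, norm_zero]
        split_ifs <;> positivity
  refine (norm_sum_le _ _).trans ((sum_le_sum hb).trans ?_)
  rw [← sum_filter, sum_const, nsmul_eq_mul]
  have h3 : ((range (p ^ h)).filter (fun v => ¬ (p ∣ v) ∧
      ((p ^ n : ℕ) : ℤ) ∣ (k : ℤ) * a * (v : ℤ) ^ (k - 1) + b)).card ≤
      (ZZ k a b p n ×ˢ range (p ^ (h - n))).card := by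
    apply card_le_card_of_injOn (fun x => (x % p ^ n, x / p ^ n))
    · intro x hx
      simp only [coe_filter, Set.mem_ofPred_eq, mem_range] at hx
      obtain ⟨hx1, hx2, hx3⟩ := hx
      simp only [coe_product, Set.mem_prod, mem_coe, mem_range]
      have hxx : x = x % p ^ n + p ^ n * (x / p ^ n) := (Nat.mod_add_div x (p ^ n)).symm
      refine ⟨?_, ?_⟩
      · unfold ZZ
        rw [mem_filter, mem_range]
        refine ⟨Nat.mod_lt _ (pow_pos hp0 n), ?_, ?_⟩
        · intro h4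
          apply hx2
          rw [hxx]
          exact dvd_add h4 (Dvd.dvd.mul_right (dvd_pow_self p (by omega)) _)
        · have h5 : ((p ^ n : ℕ) : ℤ) ∣ ((x : ℤ) - ((x % p ^ n : ℕ) : ℤ)) := by
            refine ⟨((x / p ^ n : ℕ) : ℤ), ?_⟩
            have : (x : ℤ) = ((x % p ^ n : ℕ) : ℤ) + ((p ^ n : ℕ) : ℤ) * ((x / p ^ n : ℕ) : ℤ) := by
              exact_mod_cast hxx
            linarith
          have h6 : ((p ^ n : ℕ) : ℤ) ∣ (x : ℤ) ^ (k - 1) - ((x % p ^ n : ℕ) : ℤ) ^ (k - 1) :=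
            h5.trans (sub_dvd_pow_sub_pow _ _ _)
          obtain ⟨c, hc⟩ := h6
          obtain ⟨d, hd⟩ := hx3
          refine ⟨d - k * a * c, ?_⟩
          have : ((x % p ^ n : ℕ) : ℤ) ^ (k - 1) = (x : ℤ) ^ (k - 1) - ((p ^ n : ℕ) : ℤ) * c := by
            linarith
          rw [this]
          linear_combination hd
      · rw [Nat.div_lt_iff_lt_mul (pow_pos hp0 n), ← pow_add]
        have : h - n + n = h := by omega
        rw [this]
        exact hx1
    · intro x _ y _ hxy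
      simp only [Prod.mk.injEq] at hxy
      rw [← Nat.mod_add_div x (p ^ n), ← Nat.mod_add_div y (p ^ n), hxy.1, hxy.2]
  rw [card_product, card_range] at h3
  have h4 : (p : ℝ) ^ h = (p : ℝ) ^ (h - n) * (p : ℝ) ^ n := by
    rw [← pow_add]; congr 1; omega
  rw [h4]
  have h5 : (((range (p ^ h)).filter (fun v => ¬ (p ∣ v) ∧
      ((p ^ n : ℕ) : ℤ) ∣ (k : ℤ) * a * (v : ℤ) ^ (k - 1) + b)).card : ℝ) ≤
      (ZZ k a b p n).card * (p : ℝ) ^ (h - n) := by
    exact_mod_cast h3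
  have h6 : (0 : ℝ) ≤ (p : ℝ) ^ n := by positivity
  nlinarith [mul_le_mul_of_nonneg_right h5 h6]

/-- dividing by a factor with bounded `p`-part -/
lemma dvd_aux (p n s : ℕ) (hp : p.Prime) (x y : ℤ) (hy : ¬ ((p ^ (s + 1) : ℕ) : ℤ) ∣ y)
    (h : ((p ^ n : ℕ) : ℤ) ∣ x * y) : ((p ^ (n - s) : ℕ) : ℤ) ∣ x := by
  induction s generalizing n y with
  | zero =>
    have hpp : Prime (p : ℤ) := Nat.prime_iff_prime_int.mp hp
    push_cast at *
    rw [pow_one] at hy
    exact hpp.pow_dvd_of_dvd_mul_right n hy h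
  | succ s ih =>
    by_cases hpy : (p : ℤ) ∣ y
    · obtain ⟨z, rfl⟩ := hpy
      rcases Nat.eq_zero_or_pos n with hn | hn
      · subst hn
        simp
      · have hz : ¬ ((p ^ (s + 1) : ℕ) : ℤ) ∣ z := by
          intro hz
          apply hy
          have : ((p ^ (s + 1 + 1) : ℕ) : ℤ) = (p : ℤ) * ((p ^ (s + 1) : ℕ) : ℤ) := by
            push_cast; ring
          rw [this]
          exact mul_dvd_mul_left _ hz
        have h2 : ((p ^ (n - 1) : ℕ) : ℤ) ∣ x * z := by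
          have h3 : ((p ^ n : ℕ) : ℤ) = (p : ℤ) * ((p ^ (n - 1) : ℕ) : ℤ) := by
            have h30 : p ^ n = p * p ^ (n - 1) := by
              rw [← pow_succ']; congr 1; omega
            exact_mod_cast h30
          rw [h3] at h
          have h4 : x * ((p : ℤ) * z) = (p : ℤ) * (x * z) := by ring
          rw [h4] at h
          have hp0 : (p : ℤ) ≠ 0 := by exact_mod_cast hp.pos.ne'
          exact (mul_dvd_mul_iff_left hp0).1 h
        have h5 := ih (n - 1) z hz h2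
        have h6 : n - (s + 1) = n - 1 - s := by omega
        rw [h6]
        exact h5
    · have hpp : Prime (p : ℤ) := Nat.prime_iff_prime_int.mp hp
      push_cast at *
      have h7 := hpp.pow_dvd_of_dvd_mul_right n hpy h
      exact (pow_dvd_pow _ (Nat.sub_le _ _)).trans h7

lemma fiber_le (p n r : ℕ) (hp : p.Prime) (A : Finset ℕ) (hA : A ⊆ range (p ^ n))
    (h : ∀ v ∈ A, ∀ w ∈ A, v % p ^ r = w % p ^ r) : A.card ≤ p ^ (n - r) := by
  have hp0 : 0 < p := hp.pos
  rw [← card_range (p ^ (n - r))]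
  apply card_le_card_of_injOn (fun x => x / p ^ r)
  · intro x hx
    have hx' := mem_range.1 (hA hx)
    rw [mem_coe, mem_range, Nat.div_lt_iff_lt_mul (pow_pos hp0 r), ← pow_add]
    exact hx'.trans_le (Nat.pow_le_pow_right hp0 (by omega))
  · intro x hx y hy hxy
    have h1 := h x hx y hy
    simp only at hxy
    rw [← Nat.mod_add_div x (p ^ r), ← Nat.mod_add_div y (p ^ r), h1, hxy]

/-- two solutions in the same class -/
lemma close (k p n : ℕ) (hk : 3 ≤ k) (hp : p.Prime) (a b : ℤ) (ha : ¬ (p : ℤ) ∣ a) (v w : ℕ)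
    (hv : v ∈ ZZ k a b p n) (hw : w ∈ ZZ k a b p n)
    (h : v % p ^ (Nat.log p (k - 1) + 1) = w % p ^ (Nat.log p (k - 1) + 1)) :
    ((p ^ (n - Nat.log p k - Nat.log p (k - 1)) : ℕ) : ℤ) ∣ (v : ℤ) - w := by
  have hp1 : 1 < p := hp.one_lt
  have hpp : Prime (p : ℤ) := Nat.prime_iff_prime_int.mp hp
  unfold ZZ at hv hw
  rw [mem_filter] at hv hw
  obtain ⟨_, hv1, hv2⟩ := hv
  obtain ⟨_, hw1, hw2⟩ := hw
  set m := k - 1 with hm
  set s := Nat.log p m with hs
  set t := Nat.log p k with ht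
  have h1 : ((p ^ n : ℕ) : ℤ) ∣ (k : ℤ) * a * ((v : ℤ) ^ m - (w : ℤ) ^ m) := by
    have := dvd_sub hv2 hw2
    have e : (k : ℤ) * a * (v : ℤ) ^ m + b - ((k : ℤ) * a * (w : ℤ) ^ m + b) =
      (k : ℤ) * a * ((v : ℤ) ^ m - (w : ℤ) ^ m) := by ring
    rwa [e] at this
  have h2 : ((p ^ n : ℕ) : ℤ) ∣ ((v : ℤ) ^ m - (w : ℤ) ^ m) * k := by
    have e : (k : ℤ) * a * ((v : ℤ) ^ m - (w : ℤ) ^ m) =
      (((v : ℤ) ^ m - (w : ℤ) ^ m) * k) * a := by ring
    rw [e] at h1
    have := dvd_aux p n 0 hp _ a (by simpa using ha) h1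
    simpa using this
  have h3 : ((p ^ (n - t) : ℕ) : ℤ) ∣ ((v : ℤ) ^ m - (w : ℤ) ^ m) := by
    apply dvd_aux p n t hp _ (k : ℤ) _ h2
    intro h4
    have h5 : p ^ (t + 1) ∣ k := by exact_mod_cast h4
    have h6 := Nat.le_of_dvd (by omega) h5
    have h7 := Nat.lt_pow_succ_log_self hp1 k
    rw [Nat.succ_eq_add_one, ← ht] at h7
    omega
  -- geometric sum
  have h8 : (v : ℤ) ^ m - (w : ℤ) ^ m =
      ((v : ℤ) - w) * ∑ i ∈ range m, (v : ℤ) ^ i * (w : ℤ) ^ (m - 1 - i) := by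
    rw [mul_comm, (Commute.all (v : ℤ) w).geom_sum₂_mul]
  rw [h8] at h3
  apply dvd_aux p (n - t) s hp _ _ _ h3
  intro h9
  -- the sum is congruent to m v^(m-1)
  have h10 : ((p ^ (s + 1) : ℕ) : ℤ) ∣ (v : ℤ) - w := by
    have := (Nat.modEq_iff_dvd (n := p ^ (s + 1)) (a := w) (b := v)).1 h.symm
    exact_mod_cast this
  have h11 : ((p ^ (s + 1) : ℕ) : ℤ) ∣
      (∑ i ∈ range m, (v : ℤ) ^ i * (w : ℤ) ^ (m - 1 - i)) - m * (v : ℤ) ^ (m - 1) := by
    have e : (m : ℤ) * (v : ℤ) ^ (m - 1) = ∑ i ∈ range m, (v : ℤ) ^ i * (v : ℤ) ^ (m - 1 - i) := by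
      rw [sum_congr rfl (g := fun _ => (v : ℤ) ^ (m - 1))]
      · simp
      · intro i hi
        rw [mem_range] at hi
        rw [← pow_add]
        congr 1
        omega
    rw [e, ← sum_sub_distrib]
    apply dvd_sum
    intro i _
    rw [← mul_sub]
    apply Dvd.dvd.mul_left
    rw [← neg_sub, dvd_neg]
    exact h10.trans (sub_dvd_pow_sub_pow _ _ _)
  have h12 : ((p ^ (s + 1) : ℕ) : ℤ) ∣ (m : ℤ) * (v : ℤ) ^ (m - 1) := by
    have := dvd_sub h9 h11
    simpa using this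
  have h13 : ¬ (p : ℤ) ∣ (v : ℤ) ^ (m - 1) := by
    intro h14
    have := hpp.dvd_of_dvd_pow h14
    exact hv1 (by exact_mod_cast this)
  have h15 := dvd_aux p (s + 1) 0 hp _ _ (by simpa using h13) h12
  simp only [Nat.sub_zero] at h15
  have h16 : p ^ (s + 1) ∣ m := by exact_mod_cast h15
  have h17 := Nat.le_of_dvd (by omega) h16
  have h18 := Nat.lt_pow_succ_log_self hp1 m
  rw [Nat.succ_eq_add_one, ← hs] at h18
  omega

lemma card_roots_le (k p n : ℕ) (hk : 3 ≤ k) (hn : 1 ≤ n) (hp : p.Prime) (hpk : k < p) (a b : ℤ)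
    (ha : ¬ (p : ℤ) ∣ a) : ((ZZ k a b p n).image (fun v => v % p)).card ≤ k := by
  have : Fact p.Prime := ⟨hp⟩
  let P : Polynomial (ZMod p) := Polynomial.C ((k : ZMod p) * (a : ZMod p)) * Polynomial.X ^ (k - 1) +
    Polynomial.C (b : ZMod p)
  have hka : (k : ZMod p) * (a : ZMod p) ≠ 0 := by
    apply mul_ne_zero
    · intro h
      rw [ZMod.natCast_eq_zero_iff] at h
      have := Nat.le_of_dvd (by omega) h
      omega
    · intro h
      rw [ZMod.intCast_zmod_eq_zero_iff_dvd] at h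
      exact ha h
  have hdeg : P.natDegree = k - 1 := by
    have := Polynomial.natDegree_C_mul_X_pow (k - 1) _ hka
    rw [Polynomial.natDegree_add_eq_left_of_natDegree_lt]
    · exact this
    · rw [this, Polynomial.natDegree_C]
      omega
  have hP : P ≠ 0 := by
    intro h
    rw [h, Polynomial.natDegree_zero] at hdeg
    omega
  calc ((ZZ k a b p n).image (fun v => v % p)).card ≤ P.roots.toFinset.card := by
        apply card_le_card_of_injOn (fun c : ℕ => (c : ZMod p))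
        · intro c hc
          rw [mem_coe, mem_image] at hc
          obtain ⟨v, hv, rfl⟩ := hc
          rw [mem_coe, Multiset.mem_toFinset, Polynomial.mem_roots hP, Polynomial.IsRoot.def]
          unfold ZZ at hv
          rw [mem_filter] at hv
          obtain ⟨_, _, hv2⟩ := hv
          have h1 : (p : ℤ) ∣ (k : ℤ) * a * (v : ℤ) ^ (k - 1) + b := by
            refine Dvd.dvd.trans ?_ hv2
            push_cast
            exact dvd_pow_self _ (by omega)
          rw [← ZMod.intCast_zmod_eq_zero_iff_dvd] at h1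
          push_cast at h1
          simp only [ZMod.natCast_mod, P, Polynomial.eval_add, Polynomial.eval_mul,
            Polynomial.eval_C, Polynomial.eval_pow, Polynomial.eval_X]
          exact h1
        · intro x hx y hy hxy
          rw [mem_coe, mem_image] at hx hy
          obtain ⟨v, _, rfl⟩ := hx
          obtain ⟨w, _, rfl⟩ := hy
          simp only at hxy
          have := (ZMod.natCast_eq_natCast_iff' _ _ _).1 hxy
          simpa using this
    _ ≤ P.roots.card := Multiset.toFinset_card_le _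
    _ ≤ P.natDegree := Polynomial.card_roots' P
    _ ≤ k := by omega

lemma ZZ_le (k p n : ℕ) (hk : 3 ≤ k) (hn : 1 ≤ n) (hp : p.Prime) (a b : ℤ)
    (ha : ¬ (p : ℤ) ∣ a) : (ZZ k a b p n).card ≤ k ^ 4 := by
  have hp1 : 1 < p := hp.one_lt
  set s := Nat.log p (k - 1) with hs
  set t := Nat.log p k with ht
  have hps : p ^ s ≤ k := (Nat.pow_log_le_self p (by omega)).trans (by omega)
  have hpt : p ^ t ≤ k := Nat.pow_log_le_self p (by omega)
  have h1 : (ZZ k a b p n).card ≤ k ^ 2 * ((ZZ k a b p n).image (fun v => v % p ^ (s + 1))).card := by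
    apply card_le_mul_card_image
    intro c _
    refine (fiber_le p n (n - t - s) hp _ ?_ ?_).trans ?_
    · refine (filter_subset _ _).trans ?_
      unfold ZZ
      exact filter_subset _ _
    · intro v hv w hw
      rw [mem_filter] at hv hw
      have h2 := close k p n hk hp a b ha v w hv.1 hw.1 (by rw [hv.2, hw.2])
      have h3 := (Nat.modEq_iff_dvd (n := p ^ (n - t - s)) (a := w) (b := v)).2 (by exact_mod_cast h2)
      exact h3.symm
    · calc p ^ (n - (n - t - s)) ≤ p ^ (t + s) := Nat.pow_le_pow_right hp.pos (by omega)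
        _ = p ^ t * p ^ s := pow_add _ _ _
        _ ≤ k * k := Nat.mul_le_mul hpt hps
        _ = k ^ 2 := by ring
  have h2 : ((ZZ k a b p n).image (fun v => v % p ^ (s + 1))).card ≤ k ^ 2 := by
    by_cases hpk : p ≤ k
    · calc ((ZZ k a b p n).image (fun v => v % p ^ (s + 1))).card ≤ (range (p ^ (s + 1))).card := by
            apply card_le_card
            intro c hc
            rw [mem_image] at hc
            obtain ⟨v, _, rfl⟩ := hc
            rw [mem_range]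
            exact Nat.mod_lt _ (pow_pos hp.pos _)
        _ = p ^ s * p := by rw [card_range, pow_succ]
        _ ≤ k * k := Nat.mul_le_mul hps hpk
        _ = k ^ 2 := by ring
    · have hs0 : s = 0 := by
        rw [hs]
        exact Nat.log_of_lt (by omega)
      rw [hs0, zero_add, pow_one]
      refine (card_roots_le k p n hk hn hp (by omega) a b ha).trans ?_
      nlinarith
  calc (ZZ k a b p n).card ≤ k ^ 2 * ((ZZ k a b p n).image (fun v => v % p ^ (s + 1))).card := h1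
    _ ≤ k ^ 2 * k ^ 2 := Nat.mul_le_mul le_rfl h2
    _ = k ^ 4 := by ring

/-- `q^(1-1/k)` -/
noncomputable def nm (k : ℕ) (q : ℝ) : ℝ := q * q ^ (-(1 / (k : ℝ)))

lemma nm_step (k p j : ℕ) (hk : 3 ≤ k) (hp : p.Prime) (hj : k ≤ j) :
    (p : ℝ) ^ (k - 1) * nm k ((p : ℝ) ^ (j - k)) = nm k ((p : ℝ) ^ j) := by
  have hp0 : (0 : ℝ) < p := by exact_mod_cast hp.pos
  have hk0 : (k : ℝ) ≠ 0 := by
    have : k ≠ 0 := by omega
    exact_mod_cast this
  unfold nm
  have h1 : (p : ℝ) ^ j = (p : ℝ) ^ k * (p : ℝ) ^ (j - k) := by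
    rw [← pow_add]; congr 1; omega
  have h2 : ((p : ℝ) ^ k) ^ (-(1 / (k : ℝ))) = (p : ℝ)⁻¹ := by
    rw [← Real.rpow_natCast, ← Real.rpow_mul hp0.le, ← Real.rpow_neg_one]
    congr 1
    field_simp
  rw [h1, Real.mul_rpow (by positivity) (by positivity), h2]
  have h3 : (p : ℝ) ^ k = (p : ℝ) ^ (k - 1) * p := by
    rw [← pow_succ]; congr 1; omega
  rw [h3]
  field_simp

lemma nm_triv (k p j : ℕ) (hk : 3 ≤ k) (hp : p.Prime) (hj1 : 1 ≤ j) (hj : j ≤ k) :
    (p : ℝ) ^ (j - 1) ≤ nm k ((p : ℝ) ^ j) := by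
  have hp0 : (0 : ℝ) < p := by exact_mod_cast hp.pos
  have hp1 : (1 : ℝ) ≤ p := by exact_mod_cast hp.one_lt.le
  have hk0 : (0 : ℝ) < k := by
    have : 0 < k := by omega
    exact_mod_cast this
  unfold nm
  have h1 : (p : ℝ)⁻¹ ≤ ((p : ℝ) ^ j) ^ (-(1 / (k : ℝ))) := by
    rw [← Real.rpow_natCast, ← Real.rpow_mul hp0.le, ← Real.rpow_neg_one]
    apply Real.rpow_le_rpow_of_exponent_le hp1
    have h2 : (j : ℝ) ≤ k := by exact_mod_cast hj
    rw [mul_neg, neg_le_neg_iff, mul_one_div, div_le_one hk0]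
    exact h2
  have h3 : (p : ℝ) ^ j = (p : ℝ) ^ (j - 1) * p := by
    rw [← pow_succ]; congr 1; omega
  calc (p : ℝ) ^ (j - 1) = (p : ℝ) ^ j * (p : ℝ)⁻¹ := by
        rw [h3]; field_simp
    _ ≤ (p : ℝ) ^ j * ((p : ℝ) ^ j) ^ (-(1 / (k : ℝ))) :=
        mul_le_mul_of_nonneg_left h1 (by positivity)

/-- the ratio of the geometric series -/
noncomputable def rr : ℝ := (2 : ℝ) ^ (-(1 / 6) : ℝ)

lemma rr_pos : 0 < rr := by unfold rr; positivity

lemma rr_le : rr ≤ 1 := by
  unfold rr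
  exact Real.rpow_le_one_of_one_le_of_nonpos (by norm_num) (by norm_num)

lemma nm_U (k p j : ℕ) (hk : 3 ≤ k) (hp : p.Prime) (hj : 2 ≤ j) :
    (p : ℝ) ^ (j - j / 2) ≤ 2 * rr ^ j * nm k ((p : ℝ) ^ j) := by
  have hp0 : (0 : ℝ) < p := by exact_mod_cast hp.pos
  have hp2 : (2 : ℝ) ≤ p := by exact_mod_cast hp.two_le
  have hk0 : (3 : ℝ) ≤ k := by exact_mod_cast hk
  have h1 : (p : ℝ) ^ j = (p : ℝ) ^ (j - j / 2) * (p : ℝ) ^ (j / 2) := by
    rw [← pow_add]; congr 1; omega
  have h2 : ((p : ℝ) ^ j) ^ (-(1 / (k : ℝ))) = (p : ℝ) ^ (-((j : ℝ) / k)) := by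
    rw [← Real.rpow_natCast, ← Real.rpow_mul hp0.le]
    congr 1
    ring
  have h3 : rr ^ j = (2 : ℝ) ^ (-((j : ℝ) / 6)) := by
    unfold rr
    rw [← Real.rpow_natCast, ← Real.rpow_mul (by norm_num)]
    congr 1
    ring
  have hj2 : (2 : ℝ) ≤ j := by exact_mod_cast hj
  have h4 : (j : ℝ) - 1 ≤ 2 * ((j / 2 : ℕ) : ℝ) := by
    have : j ≤ 2 * (j / 2) + 1 := by omega
    have h5 : (j : ℝ) ≤ 2 * ((j / 2 : ℕ) : ℝ) + 1 := by exact_mod_cast this
    linarith
  have h6 : (j : ℝ) / k ≤ (j : ℝ) / 3 := by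
    apply div_le_div_of_nonneg_left (by linarith) (by norm_num) hk0
  have h7 : (0 : ℝ) ≤ ((j / 2 : ℕ) : ℝ) - (j : ℝ) / k := by
    rcases Nat.lt_or_ge j 3 with h | h
    · have : j = 2 := by omega
      subst this
      norm_num
      have : (2 : ℝ) / k ≤ 2 / 3 := by simpa using h6
      linarith
    · have : (3 : ℝ) ≤ j := by exact_mod_cast h
      linarith
  have h8 : (1 : ℝ) ≤ 2 * (2 : ℝ) ^ (-((j : ℝ) / 6)) * (p : ℝ) ^ (((j / 2 : ℕ) : ℝ) - (j : ℝ) / k) := by
    have h9 : (2 : ℝ) ^ (((j / 2 : ℕ) : ℝ) - (j : ℝ) / k) ≤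
        (p : ℝ) ^ (((j / 2 : ℕ) : ℝ) - (j : ℝ) / k) :=
      Real.rpow_le_rpow (by norm_num) hp2 h7
    have h10 : (1 : ℝ) ≤ 2 * (2 : ℝ) ^ (-((j : ℝ) / 6)) *
        (2 : ℝ) ^ (((j / 2 : ℕ) : ℝ) - (j : ℝ) / k) := by
      have h11 : 2 * (2 : ℝ) ^ (-((j : ℝ) / 6)) * (2 : ℝ) ^ (((j / 2 : ℕ) : ℝ) - (j : ℝ) / k) =
          (2 : ℝ) ^ (1 + -((j : ℝ) / 6) + (((j / 2 : ℕ) : ℝ) - (j : ℝ) / k)) := by
        rw [Real.rpow_add (by norm_num), Real.rpow_add (by norm_num), Real.rpow_one]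
      rw [h11]
      apply Real.one_le_rpow (by norm_num)
      linarith
    refine h10.trans ?_
    exact mul_le_mul_of_nonneg_left h9 (by positivity)
  unfold nm
  rw [h2, h3]
  have h12 : (p : ℝ) ^ j * (p : ℝ) ^ (-((j : ℝ) / k)) =
      (p : ℝ) ^ (j - j / 2) * (p : ℝ) ^ (((j / 2 : ℕ) : ℝ) - (j : ℝ) / k) := by
    rw [sub_eq_add_neg, Real.rpow_add hp0, Real.rpow_natCast, h1]
    ring
  rw [h12]
  have h13 : (0 : ℝ) ≤ (p : ℝ) ^ (j - j / 2) := by positivity
  nlinarith [mul_le_mul_of_nonneg_left h8 h13]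

theorem thm : G_MOR → G_GPP := by
  intro hM k hk
  obtain ⟨C0, hC0⟩ := hM k hk
  set K : ℝ := 2 * (k : ℝ) ^ 4 with hK
  set N : ℝ := 4 * K with hN
  set M : ℝ := N + K + |C0| + 1 with hMM
  have hK0 : 0 ≤ K := by positivity
  have hN0 : 0 ≤ N := by positivity
  have hr0 := rr_pos
  have hr1 := rr_le
  have hrk : rr ^ k * (5 / 4) ≤ 1 := by
    have h1 : rr ^ k ≤ rr ^ 3 := pow_le_pow_of_le_one hr0.le hr1 hk
    have h2 : rr ^ 3 * (5 / 4) ≤ 1 := by
      have h3 : (rr ^ 3) ^ 2 = 1 / 2 := by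
        unfold rr
        rw [← pow_mul, ← Real.rpow_natCast, ← Real.rpow_mul (by norm_num)]
        norm_num
      have h4 : 0 < rr ^ 3 := by positivity
      nlinarith
    nlinarith
  have key : ∀ (p : ℕ) (a : ℤ), p.Prime → ¬ (p : ℤ) ∣ a → ∀ (j : ℕ) (b : ℤ),
      ‖SS k a b (p ^ j)‖ ≤ (M - N * rr ^ j) * nm k ((p : ℝ) ^ j) := by
    intro p a hp ha j
    have hp0 : (0 : ℝ) < p := by exact_mod_cast hp.pos
    induction j using Nat.strong_induction_on with
    | _ j ih =>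
      intro b
      have hnm0 : 0 ≤ nm k ((p : ℝ) ^ j) := by unfold nm; positivity
      rcases Nat.eq_zero_or_pos j with hj0 | hj0
      · subst hj0
        have h1 : ‖SS k a b (p ^ 0)‖ ≤ 1 := by
          unfold SS
          refine (norm_sum_le _ _).trans ?_
          simp [norm_eq]
        have h2 : nm k ((p : ℝ) ^ 0) = 1 := by
          unfold nm; simp
        refine h1.trans ?_
        rw [h2, pow_zero]
        have : 0 ≤ |C0| := abs_nonneg _
        linarith
      · rcases Nat.lt_or_ge j 2 with hj1 | hj2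
        · have : j = 1 := by omega
          subst this
          have h1 := hC0 p a b hp ha
          rw [GG_eq, norm_mul, norm_inv, Complex.norm_natCast] at h1
          rw [pow_one, pow_one, pow_one]
          have h2 : ‖SS k a b p‖ ≤ C0 * nm k p := by
            unfold nm
            rw [inv_mul_le_iff₀ hp0] at h1
            linarith
          refine h2.trans ?_
          have hnm1 : 0 ≤ nm k (p : ℝ) := by unfold nm; positivity
          apply mul_le_mul_of_nonneg_right _ hnm1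
          have := le_abs_self C0
          nlinarith
        · rw [SS_eq]
          have hU : ‖UU k a b p j‖ ≤ K * rr ^ j * nm k ((p : ℝ) ^ j) := by
            refine (UU_le k a b p j hp hj2).trans ?_
            have h1 : ((ZZ k a b p (j / 2)).card : ℝ) ≤ (k : ℝ) ^ 4 := by
              exact_mod_cast ZZ_le k p (j / 2) hk (by omega) hp a b ha
            have h2 := nm_U k p j hk hp hj2
            calc (p : ℝ) ^ (j - j / 2) * (ZZ k a b p (j / 2)).card
                ≤ (2 * rr ^ j * nm k ((p : ℝ) ^ j)) * (k : ℝ) ^ 4 := by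
                  apply mul_le_mul h2 h1 (by positivity) (by positivity)
              _ = K * rr ^ j * nm k ((p : ℝ) ^ j) := by rw [hK]; ring
          have hT : ‖TT k a b p j‖ ≤ (M - N * rr ^ j - K * rr ^ j) * nm k ((p : ℝ) ^ j) := by
            rcases Nat.lt_or_ge j k with hjk | hjk
            · refine (TT_triv k a b p j hp hj0).trans ((nm_triv k p j hk hp hj0 hjk.le).trans ?_)
              have h1 : (1 : ℝ) ≤ M - N * rr ^ j - K * rr ^ j := by
                have h2 : rr ^ j ≤ 1 := pow_le_one₀ hr0.le hr1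
                have : 0 ≤ |C0| := abs_nonneg _
                nlinarith
              nlinarith
            · obtain ⟨b', hb'⟩ := TT_rec k (by omega) a b p j hp hjk
              refine hb'.trans ?_
              have h1 := ih (j - k) (by omega) b'
              have h2 := nm_step k p j hk hp hjk
              calc (p : ℝ) ^ (k - 1) * ‖SS k a b' (p ^ (j - k))‖
                  ≤ (p : ℝ) ^ (k - 1) * ((M - N * rr ^ (j - k)) * nm k ((p : ℝ) ^ (j - k))) :=
                    mul_le_mul_of_nonneg_left h1 (by positivity)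
                _ = (M - N * rr ^ (j - k)) * nm k ((p : ℝ) ^ j) := by rw [← h2]; ring
                _ ≤ (M - N * rr ^ j - K * rr ^ j) * nm k ((p : ℝ) ^ j) := by
                    apply mul_le_mul_of_nonneg_right _ hnm0
                    have h3 : rr ^ j = rr ^ k * rr ^ (j - k) := by
                      rw [← pow_add]; congr 1; omega
                    have h4 : 0 < rr ^ (j - k) := by positivity
                    have h5 : rr ^ j * (5 / 4) ≤ rr ^ (j - k) := by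
                      rw [h3]; nlinarith
                    rw [hN]
                    nlinarith
          calc ‖UU k a b p j + TT k a b p j‖ ≤ ‖UU k a b p j‖ + ‖TT k a b p j‖ := norm_add_le _ _
            _ ≤ (M - N * rr ^ j) * nm k ((p : ℝ) ^ j) := by linarith
  refine ⟨M, ?_, ?_⟩
  · have : 0 ≤ |C0| := abs_nonneg _
    linarith
  · intro p j a b hp ha
    have hp0 : (0 : ℝ) < p := by exact_mod_cast hp.pos
    have h1 := key p a hp ha j b
    have hj0 : (0 : ℝ) < (p : ℝ) ^ j := by positivity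
    rw [GG_eq, norm_mul, norm_inv, Complex.norm_natCast]
    push_cast
    rw [inv_mul_le_iff₀ hj0]
    refine h1.trans ?_
    unfold nm
    have h2 : (M - N * rr ^ j) ≤ M := by
      have : 0 ≤ rr ^ j := by positivity
      nlinarith
    have h3 : 0 ≤ (p : ℝ) ^ j * ((p : ℝ) ^ j) ^ (-(1 / (k : ℝ))) := by positivity
    nlinarith [mul_le_mul_of_nonneg_right h2 h3]

end Pool.Agent.Helper42.KS.PkGPP

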